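import Pool.Agent.Helper62.LH.StS

/-!
# LH, module BLT

`2`-forms as bilinear forms.
-/

set_option autoImplicit false

open Set Filter Topology MeasureTheory
open scoped ContDiff ENNReal

noncomputable section

namespace Pool.Agent.Helper96.LH

open Helper62.LH

variable {n : ℕ}

private theorem upd1 (u v w : E n) : Function.update ![u, v] 1 w = ![u, w] := by
  funext i
  fin_cases i <;> simp

private theorem upd0 (u v w : E n) : Function.update ![u, v] 0 w = ![w, v] := by
  funext i
  fin_cases i <;> simp

private theorem al_add_r (α : E n [⋀^Fin 2]→L[ℝ] ℝ) (u v w : E n) :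
    α ![u, v + w] = α ![u, v] + α ![u, w] := by
  have := α.map_update_add ![u, 0] 1 v w
  simpa only [upd1] using this

private theorem al_smul_r (α : E n [⋀^Fin 2]→L[ℝ] ℝ) (c : ℝ) (u v : E n) :
    α ![u, c • v] = c * α ![u, v] := by
  have := α.map_update_smul ![u, 0] 1 c v
  simpa only [upd1, smul_eq_mul] using this

private theorem al_add_l (α : E n [⋀^Fin 2]→L[ℝ] ℝ) (u v w : E n) :
    α ![u + v, w] = α ![u, w] + α ![v, w] := by
  have := α.map_update_add ![0, w] 0 u v
  simpa only [upd0] using this

private theorem al_smul_l (α : E n [⋀^Fin 2]→L[ℝ] ℝ) (c : ℝ) (u v : E n) :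
    α ![c • u, v] = c * α ![u, v] := by
  have := α.map_update_smul ![0, v] 0 c u
  simpa only [upd0, smul_eq_mul] using this

private theorem al_self (α : E n [⋀^Fin 2]→L[ℝ] ℝ) (u : E n) : α ![u, u] = 0 :=
  α.map_eq_zero_of_eq ![u, u] (i := 0) (j := 1) (by simp) (by decide)

private theorem al_symm (α : E n [⋀^Fin 2]→L[ℝ] ℝ) (u v : E n) : α ![u, v] = -α ![v, u] := by
  have h := al_self α (u + v)
  rw [al_add_l, al_add_r, al_add_r, al_self, al_self] at h
  linarith

/-- the bilinear form of an alternating form -/
private def bil (α : E n [⋀^Fin 2]→L[ℝ] ℝ) : Bl n :=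
  LinearMap.toContinuousLinearMap
    { toFun := fun u => LinearMap.toContinuousLinearMap
        { toFun := fun v => α ![u, v]
          map_add' := fun v w => al_add_r α u v w
          map_smul' := fun c v => al_smul_r α c u v }
      map_add' := fun u v => by
        ext w
        exact al_add_l α u v w
      map_smul' := fun c u => by
        ext w
        exact al_smul_l α c u w }

private theorem bil_apply (α : E n [⋀^Fin 2]→L[ℝ] ℝ) (u v : E n) : bil α u v = α ![u, v] := rfl

private theorem sum_two (F : (Fin 2 → Fin n) → ℝ) : ∑ I, F I = ∑ i, ∑ k, F ![i, k] := by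
  rw [← (finTwoArrowEquiv (Fin n)).symm.sum_comp, Fintype.sum_prod_type]
  rfl

private theorem ee_two (i k : Fin n) : (fun a : Fin 2 => (ee (![i, k] a) : E n)) = ![ee i, ee k] := by
  funext a
  fin_cases a <;> rfl

theorem hBlt : StBlt := by
  intro n g φ hφ
  have hev : ∀ u v : E n, ContDiff ℝ ∞ (fun x => φ x ![u, v]) := by
    intro u v
    exact (ContinuousAlternatingMap.apply ℝ (E n) ℝ ![u, v]).contDiff.comp hφ
  have hP : ContDiff ℝ ∞ (fun x => bil (φ x)) := by
    rw [contDiff_clm_apply_iff]
    intro u
    rw [contDiff_clm_apply_iff]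
    intro v
    exact hev u v
  have hPd : Differentiable ℝ (fun x => bil (φ x)) := hP.differentiable (by simp)
  have hφd : Differentiable ℝ φ := hφ.differentiable (by simp)
  have hfd : ∀ x u v w : E n, fderiv ℝ (fun y => φ y ![v, w]) x u =
      fderiv ℝ (fun x => bil (φ x)) x u v w := by
    intro x u v w
    have h1 : (fun y => φ y ![v, w]) = fun y => bil (φ y) v w := rfl
    rw [h1]
    have h2 : HasFDerivAt (fun x => bil (φ x)) (fderiv ℝ (fun x => bil (φ x)) x) x :=
      (hPd x).hasFDerivAt
    have h3 := (h2.clm_apply (hasFDerivAt_const v x)).clm_apply (hasFDerivAt_const w x)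
    rw [h3.fderiv]
    simp
  refine ⟨fun x => bil (φ x), hP, fun x u v => rfl, fun x u v => al_symm _ u v, ?_, ?_⟩
  · intro hcl x u v w
    have h1 := extDeriv_apply (hφd x) ![u, v, w]
    rw [hcl x] at h1
    rw [Fin.sum_univ_three] at h1
    have r0 : (0 : Fin 3).removeNth ![u, v, w] = ![v, w] := by
      funext i
      fin_cases i <;> rfl
    have r1 : (1 : Fin 3).removeNth ![u, v, w] = ![u, w] := by
      funext i
      fin_cases i <;> rfl
    have r2 : (2 : Fin 3).removeNth ![u, v, w] = ![u, v] := by
      funext i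
      fin_cases i <;> rfl
    rw [r0, r1, r2, hfd, hfd, hfd] at h1
    have h2 : fderiv ℝ (fun x => bil (φ x)) x v w u =
        -fderiv ℝ (fun x => bil (φ x)) x v u w := by
      rw [← hfd, ← hfd]
      have : (fun y => φ y ![w, u]) = fun y => -(φ y ![u, w]) :=
        funext (fun y => al_symm _ w u)
      rw [this, fderiv_fun_neg]
      rfl
    rw [h2]
    simp at h1
    linarith
  · intro x
    unfold nsq nB trg
    rw [sum_two]
    simp only [sum_two, Fin.prod_univ_two, ee_two, Matrix.cons_val_zero, Matrix.cons_val_one,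
      Nat.factorial_two, Nat.cast_ofNat]
    congr 1
    refine Finset.sum_congr rfl (fun i _ => ?_)
    rw [Finset.sum_comm]
    refine Finset.sum_congr rfl (fun j _ => ?_)
    rw [Finset.mul_sum]
    refine Finset.sum_congr rfl (fun k _ => ?_)
    rw [Finset.mul_sum]
    refine Finset.sum_congr rfl (fun l _ => ?_)
    simp only [bil_apply]
    ring

end Pool.Agent.Helper96.LH
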