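import Pool.Agent.Helper62.LH.StG

/-!
# LH, module MET

Basic properties of the Riemannian distance.
-/

set_option autoImplicit false

open Set Filter Topology MeasureTheory
open scoped ContDiff ENNReal

noncomputable section

namespace Pool.Agent.Helper96.LH

open Helper62.LH

variable {n : ℕ} {g : E n → Bl n}

private theorem nr_nonneg (g : E n → Bl n) (x v : E n) : 0 ≤ nr g x v := Real.sqrt_nonneg _

private theorem nr_smul (g : E n → Bl n) (x v : E n) (a : ℝ) :
    nr g x (a • v) = |a| * nr g x v := by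
  have h : g x (a • v) (a • v) = a ^ 2 * g x v v := by
    simp only [map_smul, ContinuousLinearMap.smul_apply, smul_eq_mul]
    ring
  unfold nr
  rw [h, Real.sqrt_mul (sq_nonneg a), Real.sqrt_sq_eq_abs]

private theorem nr_cont (hg : IsMet g) {c v : ℝ → E n} (hc : Continuous c) (hv : Continuous v) :
    Continuous (fun t => nr g (c t) (v t)) := by
  have h1 : Continuous g := hg.smooth.continuous
  have h2 : Continuous (fun t => g (c t) (v t) (v t)) :=
    ((h1.comp hc).clm_apply hv).clm_apply hv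
  exact h2.sqrt

private theorem cont_F (hg : IsMet g) {c : ℝ → E n} (hc : ContDiff ℝ 1 c) :
    Continuous (fun t => nr g (c t) (deriv c t)) :=
  nr_cont hg hc.continuous (hc.continuous_deriv le_rfl)

private theorem deriv_comp_re {c : ℝ → E n} (hc : ContDiff ℝ 1 c) {f f' : ℝ → ℝ}
    (hf : ∀ t, HasDerivAt f (f' t) t) (t : ℝ) :
    HasDerivAt (fun t => c (f t)) (f' t • deriv c (f t)) t := by
  have h1 : HasDerivAt c (deriv c (f t)) (f t) :=
    (hc.differentiable one_ne_zero (f t)).hasDerivAt
  exact h1.scomp t (hf t)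

/-- substitution in the length integral -/
private theorem reparam (hg : IsMet g) {c : ℝ → E n} (hc : ContDiff ℝ 1 c) {f f' : ℝ → ℝ}
    (hf : ∀ t, HasDerivAt f (f' t) t) (hf' : Continuous f') (hpos : ∀ t, 0 ≤ f' t) (a b : ℝ) :
    ∫ t in a..b, nr g (c (f t)) (f' t • deriv c (f t)) =
      ∫ s in f a..f b, nr g (c s) (deriv c s) := by
  have h1 := intervalIntegral.integral_comp_mul_deriv (a := a) (b := b)
    (f := f) (f' := f') (g := fun s => nr g (c s) (deriv c s))
    (fun x _ => hf x) hf'.continuousOn (cont_F hg hc)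
  rw [← h1]
  refine intervalIntegral.integral_congr ?_
  intro t _
  simp only [Function.comp]
  rw [nr_smul, abs_of_nonneg (hpos t)]
  ring

private theorem len_nonneg (g : E n → Bl n) (c : ℝ → E n) : 0 ≤ len g c :=
  intervalIntegral.integral_nonneg zero_le_one (fun _ _ => nr_nonneg _ _ _)

private theorem bdd (g : E n → Bl n) (x y : E n) :
    BddBelow {l : ℝ | ∃ c : ℝ → E n, ContDiff ℝ 1 c ∧ c 0 = x ∧ c 1 = y ∧ l = len g c} := by
  refine ⟨0, ?_⟩
  rintro l ⟨c, _, _, _, rfl⟩
  exact len_nonneg g c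

private theorem dg_le {c : ℝ → E n} (hc : ContDiff ℝ 1 c) {x y : E n} (h0 : c 0 = x)
    (h1 : c 1 = y) : dg g x y ≤ len g c :=
  csInf_le (bdd g x y) ⟨c, hc, h0, h1, rfl⟩

private theorem nonempty_set (g : E n → Bl n) (x y : E n) :
    {l : ℝ | ∃ c : ℝ → E n, ContDiff ℝ 1 c ∧ c 0 = x ∧ c 1 = y ∧ l = len g c}.Nonempty := by
  refine ⟨len g (fun t => x + t • (y - x)), fun t => x + t • (y - x), ?_, ?_, ?_, rfl⟩
  · exact contDiff_const.add (contDiff_id.smul contDiff_const)
  · simp
  · simp

private theorem near (g : E n → Bl n) (x y : E n) {η : ℝ} (hη : 0 < η) :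
    ∃ c : ℝ → E n, ContDiff ℝ 1 c ∧ c 0 = x ∧ c 1 = y ∧ len g c < dg g x y + η := by
  obtain ⟨l, ⟨c, hc, h0, h1, rfl⟩, hl⟩ := exists_lt_of_csInf_lt (nonempty_set g x y)
    (show sInf _ < dg g x y + η by
      have : dg g x y < dg g x y + η := by linarith
      exact this)
  exact ⟨c, hc, h0, h1, hl⟩

private theorem dg_nonneg (g : E n → Bl n) (x y : E n) : 0 ≤ dg g x y := by
  refine Real.sInf_nonneg ?_
  rintro l ⟨c, _, _, _, rfl⟩
  exact len_nonneg g c

/-! ### A smooth step with explicit derivative -/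

private def psi (x : ℝ) : ℝ := max 0 (6 * (x * (1 - x)))

private theorem psi_cont : Continuous psi := by
  unfold psi
  fun_prop

private theorem psi_nonneg (x : ℝ) : 0 ≤ psi x := le_max_left _ _

private theorem psi_of_le {x : ℝ} (hx : x ≤ 0) : psi x = 0 := by
  unfold psi
  exact max_eq_left (by nlinarith)

private theorem psi_of_ge {x : ℝ} (hx : 1 ≤ x) : psi x = 0 := by
  unfold psi
  exact max_eq_left (by nlinarith)

private def sig (x : ℝ) : ℝ := ∫ t in (0 : ℝ)..x, psi t

private theorem sig_deriv (x : ℝ) : HasDerivAt sig (psi x) x :=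
  intervalIntegral.integral_hasDerivAt_right (psi_cont.intervalIntegrable 0 x)
    psi_cont.stronglyMeasurable.stronglyMeasurableAtFilter psi_cont.continuousAt

private theorem sig_of_le {x : ℝ} (hx : x ≤ 0) : sig x = 0 := by
  unfold sig
  have : ∫ t in (0 : ℝ)..x, psi t = ∫ t in (0 : ℝ)..x, (0 : ℝ) := by
    refine intervalIntegral.integral_congr ?_
    intro t ht
    rw [uIcc_of_ge hx] at ht
    exact psi_of_le ht.2
  rw [this]
  simp

private theorem sig_one : sig 1 = 1 := by
  unfold sig
  have h1 : ∫ t in (0 : ℝ)..1, psi t = ∫ t in (0 : ℝ)..1, 6 * (t * (1 - t)) := by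
    refine intervalIntegral.integral_congr ?_
    intro t ht
    rw [uIcc_of_le zero_le_one] at ht
    have : 0 ≤ t * (1 - t) := mul_nonneg ht.1 (by linarith [ht.2])
    exact max_eq_right (by linarith)
  rw [h1]
  have h2 : ∀ x ∈ uIcc (0 : ℝ) 1, HasDerivAt (fun x : ℝ => 3 * x ^ 2 - 2 * x ^ 3)
      (6 * (x * (1 - x))) x := by
    intro x _
    have h := ((hasDerivAt_pow 2 x).const_mul 3).sub ((hasDerivAt_pow 3 x).const_mul 2)
    refine h.congr_deriv ?_
    norm_num
    ring
  have hc : Continuous (fun t : ℝ => 6 * (t * (1 - t))) := by fun_prop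
  rw [intervalIntegral.integral_eq_sub_of_hasDerivAt h2 (hc.intervalIntegrable 0 1)]
  norm_num

private theorem sig_of_ge {x : ℝ} (hx : 1 ≤ x) : sig x = 1 := by
  have h0 : sig x = sig 1 + ∫ t in (1 : ℝ)..x, psi t := by
    unfold sig
    rw [intervalIntegral.integral_add_adjacent_intervals (psi_cont.intervalIntegrable 0 1)
      (psi_cont.intervalIntegrable 1 x)]
  have : ∫ t in (1 : ℝ)..x, psi t = ∫ t in (1 : ℝ)..x, (0 : ℝ) := by
    refine intervalIntegral.integral_congr ?_
    intro t ht
    rw [uIcc_of_le hx] at ht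
    exact psi_of_ge ht.1
  rw [h0, this, sig_one]
  simp

private theorem sig_contDiff : ContDiff ℝ 1 sig := by
  rw [contDiff_one_iff_deriv]
  refine ⟨fun x => (sig_deriv x).differentiableAt, ?_⟩
  have : deriv sig = psi := funext (fun x => (sig_deriv x).deriv)
  rw [this]
  exact psi_cont

/-! ### The parts -/

private theorem part1 (hg : IsMet g) (c : ℝ → E n) (hc : ContDiff ℝ 1 c) (s t : ℝ) (hst : s ≤ t) :
    dg g (c s) (c t) ≤ ∫ τ in s..t, nr g (c τ) (deriv c τ) := by
  have hf : ∀ u : ℝ, HasDerivAt (fun u : ℝ => s + (t - s) * u) (t - s) u := by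
    intro u
    have := ((hasDerivAt_id u).const_mul (t - s)).const_add s
    simpa using this
  have h1 : ContDiff ℝ 1 (fun u : ℝ => c (s + (t - s) * u)) :=
    hc.comp (by fun_prop)
  have h2 := dg_le (g := g) h1 (x := c s) (y := c t) (by simp) (by simp)
  refine h2.trans (le_of_eq ?_)
  have h3 := reparam hg hc (f := fun u : ℝ => s + (t - s) * u) (f' := fun _ => t - s) hf
    continuous_const (fun _ => sub_nonneg.2 hst) 0 1
  have e0 : s + (t - s) * 0 = s := by ring
  have e1 : s + (t - s) * 1 = t := by ring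
  simp only [e0, e1] at h3
  rw [← h3]
  unfold len
  refine intervalIntegral.integral_congr ?_
  intro u _
  simp only
  rw [(deriv_comp_re hc hf u).deriv]

private theorem symm_le (hg : IsMet g) (x y : E n) : dg g x y ≤ dg g y x := by
  refine le_csInf (nonempty_set g y x) ?_
  rintro l ⟨c, hc, h0, h1, rfl⟩
  have hf : ∀ u : ℝ, HasDerivAt (fun u : ℝ => 1 - u) (-1) u := by
    intro u
    simpa using (hasDerivAt_id u).const_sub 1
  have hcc : ContDiff ℝ 1 (fun u : ℝ => c (1 - u)) := hc.comp (by fun_prop)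
  have h2 := dg_le (g := g) hcc (x := x) (y := y) (by simp [h1]) (by simp [h0])
  refine h2.trans (le_of_eq ?_)
  unfold len
  have h3 : ∫ t in (0 : ℝ)..1, nr g (c (1 - t)) (deriv (fun u : ℝ => c (1 - u)) t) =
      ∫ t in (0 : ℝ)..1, (fun s => nr g (c s) (deriv c s)) (1 - t) := by
    refine intervalIntegral.integral_congr ?_
    intro u _
    simp only
    rw [(deriv_comp_re hc hf u).deriv, nr_smul]
    simp
  rw [h3, intervalIntegral.integral_comp_sub_left (fun s => nr g (c s) (deriv c s)) 1]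
  simp

private theorem tri (hg : IsMet g) {x y z : E n} {c₁ c₂ : ℝ → E n} (hc₁ : ContDiff ℝ 1 c₁)
    (hc₂ : ContDiff ℝ 1 c₂) (h10 : c₁ 0 = x) (h11 : c₁ 1 = y) (h20 : c₂ 0 = y) (h21 : c₂ 1 = z) :
    dg g x z ≤ len g c₁ + len g c₂ := by
  set f₁ : ℝ → ℝ := fun t => sig (2 * t) with hf₁
  set f₂ : ℝ → ℝ := fun t => sig (2 * t - 1) with hf₂
  have hd₁ : ∀ t, HasDerivAt f₁ (2 * psi (2 * t)) t := by
    intro t
    have h1 : HasDerivAt (fun t : ℝ => 2 * t) 2 t := by
      simpa using (hasDerivAt_id t).const_mul 2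
    have := (sig_deriv (2 * t)).comp t h1
    rw [mul_comm]
    exact this
  have hd₂ : ∀ t, HasDerivAt f₂ (2 * psi (2 * t - 1)) t := by
    intro t
    have h1 : HasDerivAt (fun t : ℝ => 2 * t - 1) 2 t := by
      simpa using ((hasDerivAt_id t).const_mul 2).sub_const 1
    have := (sig_deriv (2 * t - 1)).comp t h1
    rw [mul_comm]
    exact this
  have hc : ContDiff ℝ 1 (fun t => c₁ (f₁ t) + c₂ (f₂ t) - y) := by
    have e1 : ContDiff ℝ 1 f₁ := sig_contDiff.comp (by fun_prop)
    have e2 : ContDiff ℝ 1 f₂ := sig_contDiff.comp (by fun_prop)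
    exact ((hc₁.comp e1).add (hc₂.comp e2)).sub contDiff_const
  have hD : ∀ t, deriv (fun t => c₁ (f₁ t) + c₂ (f₂ t) - y) t =
      (2 * psi (2 * t)) • deriv c₁ (f₁ t) + (2 * psi (2 * t - 1)) • deriv c₂ (f₂ t) := by
    intro t
    exact (((deriv_comp_re hc₁ hd₁ t).add (deriv_comp_re hc₂ hd₂ t)).sub_const y).deriv
  have hle := dg_le (g := g) hc (x := x) (y := z)
    (by
      simp only [hf₁, hf₂, mul_zero, zero_sub]
      rw [sig_of_le le_rfl, sig_of_le (by norm_num), h10, h20]
      simp)
    (by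
      simp only [hf₁, hf₂, mul_one]
      rw [sig_of_ge (by norm_num), sig_of_ge (by norm_num), h11, h21]
      simp)
  refine hle.trans (le_of_eq ?_)
  have hcont := cont_F hg hc
  unfold len
  rw [← intervalIntegral.integral_add_adjacent_intervals
    (hcont.intervalIntegrable 0 (1 / 2)) (hcont.intervalIntegrable (1 / 2) 1)]
  congr 1
  · have h3 := reparam hg hc₁ hd₁ (by
        have := psi_cont
        fun_prop) (fun t => mul_nonneg zero_le_two (psi_nonneg _)) 0 (1 / 2)
    have e0 : f₁ 0 = 0 := by simp only [hf₁, mul_zero]; exact sig_of_le le_rfl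
    have e1 : f₁ (1 / 2) = 1 := by
      simp only [hf₁]
      exact sig_of_ge (by norm_num)
    rw [e0, e1] at h3
    rw [← h3]
    refine intervalIntegral.integral_congr ?_
    intro t ht
    rw [uIcc_of_le (by norm_num)] at ht
    have h2t : 2 * t - 1 ≤ 0 := by linarith [ht.2]
    simp only
    rw [hD t, psi_of_le h2t]
    have e2 : f₂ t = 0 := sig_of_le h2t
    rw [e2, h20]
    simp
  · have h3 := reparam hg hc₂ hd₂ (by
        have := psi_cont
        fun_prop) (fun t => mul_nonneg zero_le_two (psi_nonneg _)) (1 / 2) 1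
    have e0 : f₂ (1 / 2) = 0 := by simp only [hf₂]; exact sig_of_le (by norm_num)
    have e1 : f₂ 1 = 1 := by
      simp only [hf₂]
      exact sig_of_ge (by norm_num)
    rw [e0, e1] at h3
    rw [← h3]
    refine intervalIntegral.integral_congr ?_
    intro t ht
    rw [uIcc_of_le (by norm_num)] at ht
    have h2t : 1 ≤ 2 * t := by linarith [ht.1]
    simp only
    rw [hD t, psi_of_ge h2t]
    have e2 : f₁ t = 1 := sig_of_ge h2t
    rw [e2, h11]
    simp

theorem hMet : StMet := by
  intro n g hg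
  refine ⟨part1 hg, fun x y η hη => near g x y hη, dg_nonneg g, ?_, ?_, ?_⟩
  · intro x
    have h1 := dg_le (g := g) (c := fun _ => x) contDiff_const (x := x) (y := x) rfl rfl
    have h2 : len g (fun _ => x) = 0 := by
      unfold len
      have : ∀ t : ℝ, nr g x (deriv (fun _ : ℝ => x) t) = 0 := by
        intro t
        simp [nr]
      simp only [this]
      simp
    rw [h2] at h1
    exact le_antisymm h1 (dg_nonneg g x x)
  · intro x y
    exact le_antisymm (symm_le hg x y) (symm_le hg y x)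
  · intro x y z
    refine le_of_forall_pos_lt_add ?_
    intro ε hε
    obtain ⟨c₁, hc₁, h10, h11, hl₁⟩ := near g x y (half_pos hε)
    obtain ⟨c₂, hc₂, h20, h21, hl₂⟩ := near g y z (half_pos hε)
    have := tri hg hc₁ hc₂ h10 h11 h20 h21
    linarith

end Pool.Agent.Helper96.LH
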